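import Pool.Agent.H54.WM.Targets

/-!
# POW: the subsets of `V_ κ` in the class are in HOD
-/

open Ordinal Cardinal Order Set
open scoped ZFSet

universe u

namespace Pool.Agent.H61.WM.POW

open _root_.HD Pool.Agent.H54.WM

theorem X (hIDC : T_IDC.{u}) (hTSH : T_TSH.{u}) : T_POW.{u} := by
  intro ξ κ j h π hπ
  have hid := (hIDC ξ κ j h π hπ).1
  have key : ∀ x : ZFSet.{u}, ∀ t : Tm κ, π t = x → x ⊆ V_ κ → HOD x := by
    intro x
    induction x using ZFSet.inductionOn with
    | _ x ih =>
      intro t ht hx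
      -- the elements of `x` are in HOD
      have hel : ∀ y ∈ x, y ∈ HV κ := by
        intro y hy
        have hyV : y ∈ V_ κ := hx hy
        obtain ⟨s, hs⟩ := hπ.tra t y (by rw [ht]; exact hy)
        have hsub : y ⊆ V_ κ := by
          intro z hz
          rw [ZFSet.mem_vonNeumann] at hyV ⊢
          exact (ZFSet.rank_lt_of_mem hz).trans hyV
        exact mem_HV.2 ⟨hyV, ih y hy s hs hsub⟩
      -- the truth set
      have hTS : VH ξ (TS ξ (.mem 0 1) (sv [idf ξ, t.f])) := by
        refine ⟨hTSH ξ _ _ ?_, fun z hz => (mem_HV.1 (mem_TS.1 hz).1).1⟩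
        intro n
        rcases n with _ | _ | n
        · exact hod_idf ξ
        · exact t.hf
        · exact hod_empty
      have hB : HOD (j (TS ξ (.mem 0 1) (sv [idf ξ, t.f]))) := (h.emb.map _ hTS).1
      have hb : HOD t.b := (mem_HV.1 t.hb).2
      refine hod_iff.2 ⟨?_, fun y hy => (mem_HV.1 (hel y hy)).2⟩
      refine OD.of_mem (P := fun v => v 0 ∈ HV κ ∧
        ∃ p, p ∈ j (TS ξ (.mem 0 1) (sv [idf ξ, t.f])) ∧ p = tup [v 0, t.b]) ?_ fun v => ?_
      · refine (DZ.od (R := fun b v => v 0 ∈ b) (hod_HV κ).od (DZ.mem 1 0)).and ?_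
        refine DZ.ex (R := fun p v => p ∈ j (TS ξ (.mem 0 1) (sv [idf ξ, t.f])) ∧
          p = tup [v 0, t.b]) ?_
        exact (DZ.od (R := fun b v => v 0 ∈ b) hB.od (DZ.mem 1 0)).and
          (DZ.od (R := fun b v => v 0 = tup [v 1, b]) hb.od (D0.tup2 1 2 0).dz)
      · constructor
        · rintro ⟨hv, p, hp, rfl⟩
          have h1 : ME ξ j (idt ξ (v 0) hv) t := hp
          rw [hπ.mem, hid, ht] at h1
          exact h1
        · intro hv
          have hv' := hel _ hv
          refine ⟨hv', _, ?_, rfl⟩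
          have h1 : ME ξ j (idt ξ (v 0) hv') t := by
            rw [hπ.mem, hid, ht]
            exact hv
          exact h1
  exact fun t ht => key (π t) t rfl ht

end Pool.Agent.H61.WM.POW
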